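import Mathlib

/-!
# Paths given by finite sums of continuous real functions times constants
-/

set_option autoImplicit false
set_option linter.unusedSectionVars false

noncomputable section

namespace Pool.Agent.X128.QN

/-- finite sums of continuous real functions times constants -/
inductive FC {E : Type} [AddCommGroup E] [Module ℝ E] : (ℝ → E) → Prop
  | single (c : ℝ → ℝ) (hc : Continuous c) (T : E) : FC (fun t => c t • T)
  | add (f g : ℝ → E) (hf : FC f) (hg : FC g) : FC (fun t => f t + g t)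

section module

variable {E E' : Type} [AddCommGroup E] [Module ℝ E] [AddCommGroup E'] [Module ℝ E']

lemma FC.const (T : E) : FC (fun _ => T) := by
  simpa using FC.single (fun _ => 1) continuous_const T

lemma FC.map (φ : E →ₗ[ℝ] E') {f : ℝ → E} (h : FC f) : FC (fun t => φ (f t)) := by
  induction h with
  | single c hc T =>
    simp only [map_smul]
    exact FC.single c hc _
  | add f g _ _ h1 h2 =>
    simp only [map_add]
    exact FC.add _ _ h1 h2

lemma FC.comp {f : ℝ → E} (h : FC f) {τ : ℝ → ℝ} (hτ : Continuous τ) : FC (fun t => f (τ t)) := by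
  induction h with
  | single c hc T => exact FC.single (fun t => c (τ t)) (hc.comp hτ) T
  | add f g _ _ h1 h2 => exact FC.add _ _ h1 h2

lemma FC.coord (φ : E →ₗ[ℝ] ℝ) {f : ℝ → E} (h : FC f) : Continuous (fun t => φ (f t)) := by
  induction h with
  | single c hc T =>
    simp only [map_smul, smul_eq_mul]
    exact hc.mul continuous_const
  | add f g _ _ h1 h2 =>
    simp only [map_add]
    exact h1.add h2

lemma FC.sum {ι : Type} (s : Finset ι) (f : ι → ℝ → E) (h : ∀ i ∈ s, FC (f i)) :
    FC (fun t => ∑ i ∈ s, f i t) := by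
  classical
  induction s using Finset.induction_on with
  | empty =>
    simp only [Finset.sum_empty]
    exact FC.const 0
  | insert a s ha ih =>
    simp only [Finset.sum_insert ha]
    exact FC.add _ _ (h a (Finset.mem_insert_self a s))
      (ih fun i hi => h i (Finset.mem_insert_of_mem hi))

lemma FC.of_coord [Module.Finite ℝ E] {f : ℝ → E}
    (h : ∀ i, Continuous (fun t => (Module.finBasis ℝ E).repr (f t) i)) : FC f := by
  have h1 : f = fun t => ∑ i, (Module.finBasis ℝ E).repr (f t) i • (Module.finBasis ℝ E) i := by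
    funext t
    exact ((Module.finBasis ℝ E).sum_repr (f t)).symm
  rw [h1]
  exact FC.sum _ _ fun i _ => FC.single _ (h i) _

end module

section ring

variable {E : Type} [Ring E] [Algebra ℝ E]

lemma FC.mul {f g : ℝ → E} (hf : FC f) (hg : FC g) : FC (fun t => f t * g t) := by
  induction hf with
  | single c hc T =>
    induction hg with
    | single d hd U =>
      simp only [smul_mul_smul_comm]
      exact FC.single (fun t => c t * d t) (hc.mul hd) _
    | add f g _ _ h1 h2 =>
      simp only [mul_add]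
      exact FC.add _ _ h1 h2
  | add f g _ _ h1 h2 =>
    simp only [add_mul]
    exact FC.add _ _ h1 h2

lemma FC.inv [Module.Finite ℝ E] {u : ℝ → E} (hu : FC u) (h : ∀ t, IsUnit (u t)) :
    ∃ w, FC w ∧ ∀ t, u t * w t = 1 ∧ w t * u t = 1 := by
  classical
  set b := Module.finBasis ℝ E with hb
  refine ⟨fun t => ((h t).unit⁻¹ : Eˣ), ?_, fun t => ⟨(h t).mul_val_inv, (h t).val_inv_mul⟩⟩
  let L : ℝ → Matrix (Fin (Module.finrank ℝ E)) (Fin (Module.finrank ℝ E)) ℝ := fun t =>
    LinearMap.toMatrix b b (LinearMap.mulLeft ℝ (u t))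
  have hLc : Continuous L := by
    refine continuous_matrix fun i j => ?_
    let φ : E →ₗ[ℝ] ℝ := (b.coord i).comp (LinearMap.mulRight ℝ (b j))
    have h1 : (fun t => L t i j) = fun t => φ (u t) := by
      funext t
      change LinearMap.toMatrix b b (LinearMap.mulLeft ℝ (u t)) i j = b.repr (u t * b j) i
      rw [LinearMap.toMatrix_apply]
      rfl
    rw [h1]
    exact hu.coord φ
  have hdet : ∀ t, (L t).det ≠ 0 := by
    intro t
    have h1 : L t * LinearMap.toMatrix b b (LinearMap.mulLeft ℝ (((h t).unit⁻¹ : Eˣ) : E)) = 1 := by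
      rw [← LinearMap.toMatrix_mul]
      have h2 : LinearMap.mulLeft ℝ (u t) * LinearMap.mulLeft ℝ (((h t).unit⁻¹ : Eˣ) : E) = 1 := by
        ext x
        simp only [Module.End.mul_apply, LinearMap.mulLeft_apply, Module.End.one_apply]
        rw [← mul_assoc, (h t).mul_val_inv, one_mul]
      rw [h2, LinearMap.toMatrix_one]
    intro h0
    have h3 := congrArg Matrix.det h1
    rw [Matrix.det_mul, h0, zero_mul, Matrix.det_one] at h3
    exact zero_ne_one h3
  have key : ∀ t, ⇑(b.repr (((h t).unit⁻¹ : Eˣ) : E)) =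
      ((L t).det)⁻¹ • ((L t).adjugate.mulVec ⇑(b.repr 1)) := by
    intro t
    have h1 : (L t).mulVec ⇑(b.repr (((h t).unit⁻¹ : Eˣ) : E)) = ⇑(b.repr 1) := by
      have := LinearMap.toMatrix_mulVec_repr b b (LinearMap.mulLeft ℝ (u t))
        (((h t).unit⁻¹ : Eˣ) : E)
      rw [LinearMap.mulLeft_apply, (h t).mul_val_inv] at this
      exact this
    rw [← h1, Matrix.mulVec_mulVec, Matrix.adjugate_mul, Matrix.smul_mulVec, Matrix.one_mulVec,
      smul_smul, inv_mul_cancel₀ (hdet t), one_smul]
  apply FC.of_coord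
  intro i
  have h1 : (fun t => (Module.finBasis ℝ E).repr (((h t).unit⁻¹ : Eˣ) : E) i) =
      fun t => ((L t).det)⁻¹ * ((L t).adjugate.mulVec ⇑(b.repr 1)) i := by
    funext t
    have := congrFun (key t) i
    rw [Pi.smul_apply, smul_eq_mul] at this
    exact this
  rw [h1]
  refine (hLc.matrix_det.inv₀ hdet).mul ?_
  exact (continuous_apply i).comp (hLc.matrix_adjugate.matrix_mulVec continuous_const)

/-- elementary path of units commuting with `A` -/
def UP (A g h : E) : Prop :=
  ∃ u : ℝ → E, FC u ∧ (∀ t, IsUnit (u t) ∧ Commute (u t) A) ∧ u 0 = g ∧ u 1 = h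

/-- chains of elementary paths of units -/
def UJ (A : E) : E → E → Prop := Relation.ReflTransGen (UP A)

/-- elementary path of `p`-th roots of `A` -/
def RP (p : ℕ) (A X Y : E) : Prop :=
  ∃ Z : ℝ → E, FC Z ∧ (∀ t, Z t ^ p = A) ∧ Z 0 = X ∧ Z 1 = Y

/-- chains -/
def RJ (p : ℕ) (A : E) : E → E → Prop := Relation.ReflTransGen (RP p A)

lemma RP.symm {p : ℕ} {A X Y : E} (h : RP p A X Y) : RP p A Y X := by
  obtain ⟨Z, h1, h2, h3, h4⟩ := h
  refine ⟨fun t => Z (1 - t), h1.comp (by fun_prop), fun t => h2 _, ?_, ?_⟩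
  · simp only [sub_zero]
    exact h4
  · simp only [sub_self]
    exact h3

lemma RJ.symm {p : ℕ} {A X Y : E} (h : RJ p A X Y) : RJ p A Y X := by
  induction h with
  | refl => exact Relation.ReflTransGen.refl
  | tail _ h2 ih => exact Relation.ReflTransGen.head h2.symm ih

lemma RJ.root {p : ℕ} {A X Y : E} (h : RJ p A X Y) (hX : X ^ p = A) : Y ^ p = A := by
  induction h with
  | refl => exact hX
  | tail _ h2 _ =>
    obtain ⟨Z, h1, h2, h3, h4⟩ := h2
    rw [← h4]
    exact h2 1

lemma conj_pow' {u w X : E} (h : w * u = 1) (h' : u * w = 1) (p : ℕ) :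
    (u * X * w) ^ p = u * X ^ p * w := by
  induction p with
  | zero => rw [pow_zero, pow_zero, mul_one, h']
  | succ n ih =>
    rw [pow_succ, ih, pow_succ]
    calc u * X ^ n * w * (u * X * w) = u * X ^ n * (w * u) * X * w := by noncomm_ring
      _ = u * (X ^ n * X) * w := by rw [h]; noncomm_ring

lemma UJ.conj [Module.Finite ℝ E] {p : ℕ} {A X g : E} (h : UJ A g 1) (hX : X ^ p = A) :
    ∀ g', g * g' = 1 → g' * g = 1 → RJ p A (g * X * g') X := by
  induction h using Relation.ReflTransGen.head_induction_on with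
  | refl =>
    intro g' h1 h2
    rw [one_mul] at h1
    rw [h1, one_mul, mul_one]
    exact Relation.ReflTransGen.refl
  | head h1 hrest ih =>
    rename_i g₁ k
    intro g' h2 h3
    obtain ⟨u, hu, hu2, hu3, hu4⟩ := h1
    obtain ⟨w, hw, hw2⟩ := hu.inv fun t => (hu2 t).1
    have hw0 : w 0 = g' := by
      have := (hw2 0).2
      rw [hu3] at this
      calc w 0 = w 0 * (g₁ * g') := by rw [h2, mul_one]
        _ = (w 0 * g₁) * g' := by rw [mul_assoc]
        _ = g' := by rw [this, one_mul]
    have hw1 := hw2 1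
    rw [hu4] at hw1
    refine Relation.ReflTransGen.head ?_ (ih (w 1) hw1.1 hw1.2)
    refine ⟨fun t => u t * X * w t, (hu.mul (FC.const X)).mul hw, ?_, ?_, ?_⟩
    · intro t
      rw [conj_pow' (hw2 t).2 (hw2 t).1, hX, (hu2 t).2.eq, mul_assoc, (hw2 t).1, mul_one]
    · simp only
      rw [hu3, hw0]
    · simp only
      rw [hu4]

lemma UJ.mulr {A g h k : E} (hgh : UJ A g h) (hk : IsUnit k) (hkA : Commute k A) :
    UJ A (g * k) (h * k) := by
  induction hgh with
  | refl => exact Relation.ReflTransGen.refl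
  | tail _ h2 ih =>
    refine Relation.ReflTransGen.tail ih ?_
    obtain ⟨u, hu, hu2, hu3, hu4⟩ := h2
    refine ⟨fun t => u t * k, hu.mul (FC.const k), fun t => ⟨(hu2 t).1.mul hk, (hu2 t).2.mul_left hkA⟩,
      ?_, ?_⟩
    · simp only
      rw [hu3]
    · simp only
      rw [hu4]

lemma UJ.map {E' : Type} [Ring E'] [Algebra ℝ E'] {A : E} {A' : E'} (Φ : E → E')
    (hFC : ∀ f : ℝ → E, FC f → FC (fun t => Φ (f t))) (hu : ∀ x, IsUnit x → IsUnit (Φ x))
    (hc : ∀ x, Commute x A → Commute (Φ x) A') {g h : E} (hgh : UJ A g h) : UJ A' (Φ g) (Φ h) := by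
  induction hgh with
  | refl => exact Relation.ReflTransGen.refl
  | tail _ h2 ih =>
    refine Relation.ReflTransGen.tail ih ?_
    obtain ⟨u, h1, h2, h3, h4⟩ := h2
    exact ⟨fun t => Φ (u t), hFC u h1, fun t => ⟨hu _ (h2 t).1, hc _ (h2 t).2⟩,
      congrArg Φ h3, congrArg Φ h4⟩

lemma RJ.map {E' : Type} [Ring E'] [Algebra ℝ E'] {p : ℕ} {A : E} {A' : E'} (Φ : E → E')
    (hFC : ∀ f : ℝ → E, FC f → FC (fun t => Φ (f t))) (hr : ∀ x, x ^ p = A → Φ x ^ p = A')
    {g h : E} (hgh : RJ p A g h) : RJ p A' (Φ g) (Φ h) := by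
  induction hgh with
  | refl => exact Relation.ReflTransGen.refl
  | tail _ h2 ih =>
    refine Relation.ReflTransGen.tail ih ?_
    obtain ⟨u, h1, h2, h3, h4⟩ := h2
    exact ⟨fun t => Φ (u t), hFC u h1, fun t => hr _ (h2 t), congrArg Φ h3, congrArg Φ h4⟩

end ring

end Pool.Agent.X128.QN
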