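import Pool.Agent.X128.QN.A

/-!
# Nilpotent operators on quaternionic vector spaces: splitting, ranks, complex structures
-/

set_option autoImplicit false
set_option linter.unusedSectionVars false

noncomputable section

namespace Pool.Agent.X128.QN

/-- the quaternions -/
abbrev HH := Quaternion ℝ

/-- the shift -/
def Sh (a : ℕ) : Module.End HH (Fin (a + 1) → HH) where
  toFun x := (Fin.cons (0 : HH) (fun j : Fin a => x j.castSucc) : Fin (a + 1) → HH)
  map_add' x y := by
    funext j
    refine Fin.cases ?_ (fun i => ?_) j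
    · simp
    · simp
  map_smul' q x := by
    funext j
    refine Fin.cases ?_ (fun i => ?_) j
    · simp
    · simp

lemma Sh_zero (a : ℕ) (x : Fin (a + 1) → HH) : Sh a x 0 = 0 := rfl

lemma Sh_succ (a : ℕ) (x : Fin (a + 1) → HH) (j : Fin a) : Sh a x j.succ = x j.castSucc := rfl

lemma Sh_pow (a m : ℕ) (x : Fin (a + 1) → HH) (j : Fin (a + 1)) :
    ((Sh a ^ m) x) j = if h : m ≤ (j : ℕ) then x ⟨(j : ℕ) - m, by omega⟩ else 0 := by
  induction m generalizing j with
  | zero => simp
  | succ m ih =>
    rw [pow_succ', Module.End.mul_apply]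
    refine Fin.cases ?_ (fun i => ?_) j
    · rw [Sh_zero, dif_neg]
      simp
    · rw [Sh_succ, ih]
      by_cases h : m ≤ (i : ℕ)
      · rw [dif_pos (by simpa using h), dif_pos (by simpa using h)]
        congr 1
        apply Fin.ext
        simp
      · rw [dif_neg (by simpa using h), dif_neg (by simpa using h)]

lemma rk_Sh (a m : ℕ) : Module.finrank HH (LinearMap.range (Sh a ^ m)) = a + 1 - m := by
  let ι : (Fin (a + 1 - m) → HH) →ₗ[HH] (Fin (a + 1) → HH) :=
    { toFun := fun y j => if h : m ≤ (j : ℕ) then y ⟨(j : ℕ) - m, by omega⟩ else 0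
      map_add' := by
        intro x y
        funext j
        by_cases h : m ≤ (j : ℕ) <;> simp [h]
      map_smul' := by
        intro q y
        funext j
        by_cases h : m ≤ (j : ℕ) <;> simp [h] }
  have hι : ∀ y j, ι y j = if h : m ≤ (j : ℕ) then y ⟨(j : ℕ) - m, by omega⟩ else 0 :=
    fun _ _ => rfl
  have hinj : Function.Injective ι := by
    intro y y' h
    funext i
    have h1 := congrFun h ⟨(i : ℕ) + m, by omega⟩
    rw [hι, hι, dif_pos (by simp), dif_pos (by simp)] at h1
    have h2 : (⟨(i : ℕ) + m - m, by omega⟩ : Fin (a + 1 - m)) = i := Fin.ext (by simp)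
    simp only at h1
    rw [h2] at h1
    exact h1
  have hr : LinearMap.range (Sh a ^ m) = LinearMap.range ι := by
    ext z
    constructor
    · rintro ⟨x, rfl⟩
      refine ⟨fun i => x ⟨i, by omega⟩, ?_⟩
      funext j
      rw [hι, Sh_pow]
    · rintro ⟨y, rfl⟩
      refine ⟨fun i => if h : (i : ℕ) < a + 1 - m then y ⟨i, h⟩ else 0, ?_⟩
      funext j
      rw [hι, Sh_pow]
      by_cases h : m ≤ (j : ℕ)
      · rw [dif_pos h, dif_pos h, dif_pos (by simp only; omega)]
      · rw [dif_neg h, dif_neg h]
  rw [hr, LinearMap.finrank_range_of_inj hinj, Module.finrank_fin_fun]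

section

variable {V W V' : Type} [AddCommGroup V] [Module HH V] [Module.Finite HH V]
  [AddCommGroup W] [Module HH W] [Module.Finite HH W]
  [AddCommGroup V'] [Module HH V'] [Module.Finite HH V']

/-- transport of endomorphisms -/
def tr (e : V ≃ₗ[HH] W) (f : Module.End HH W) : Module.End HH V :=
  (e.symm : W →ₗ[HH] V) ∘ₗ f ∘ₗ (e : V →ₗ[HH] W)

lemma tr_apply (e : V ≃ₗ[HH] W) (f : Module.End HH W) (v : V) : tr e f v = e.symm (f (e v)) := rfl

lemma tr_mul (e : V ≃ₗ[HH] W) (f g : Module.End HH W) : tr e (f * g) = tr e f * tr e g := by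
  ext v
  simp [tr_apply]

lemma tr_one (e : V ≃ₗ[HH] W) : tr e 1 = 1 := by
  ext v
  simp [tr_apply]

lemma tr_neg_one (e : V ≃ₗ[HH] W) : tr e (-1) = -1 := by
  ext v
  simp [tr_apply]

lemma tr_pow (e : V ≃ₗ[HH] W) (f : Module.End HH W) (n : ℕ) : tr e (f ^ n) = tr e f ^ n := by
  induction n with
  | zero => rw [pow_zero, pow_zero, tr_one]
  | succ n ih => rw [pow_succ, pow_succ, tr_mul, ih]

lemma rk_tr (e : V ≃ₗ[HH] W) (f : Module.End HH W) :
    Module.finrank HH (LinearMap.range (tr e f)) = Module.finrank HH (LinearMap.range f) := by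
  have h : LinearMap.range (tr e f) = (LinearMap.range f).map (e.symm : W →ₗ[HH] V) := by
    ext z
    constructor
    · rintro ⟨v, rfl⟩
      exact ⟨f (e v), ⟨e v, rfl⟩, rfl⟩
    · rintro ⟨_, ⟨w, rfl⟩, rfl⟩
      refine ⟨e.symm w, ?_⟩
      rw [tr_apply, e.apply_symm_apply]
      rfl
  rw [h]
  exact LinearEquiv.finrank_map_eq e.symm _

lemma prod_mul (f f' : Module.End HH V) (g g' : Module.End HH W) :
    (f.prodMap g : Module.End HH (V × W)) * (f'.prodMap g') = (f * f').prodMap (g * g') := rfl

lemma prod_one : ((1 : Module.End HH V).prodMap (1 : Module.End HH W) : Module.End HH (V × W)) = 1 := rfl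

lemma prod_pow (f : Module.End HH V) (g : Module.End HH W) (n : ℕ) :
    (f.prodMap g : Module.End HH (V × W)) ^ n = (f ^ n).prodMap (g ^ n) := by
  induction n with
  | zero => rfl
  | succ n ih => rw [pow_succ, ih, prod_mul, pow_succ, pow_succ]

lemma rk_prod (f : Module.End HH V) (g : Module.End HH W) :
    Module.finrank HH (LinearMap.range (f.prodMap g)) =
      Module.finrank HH (LinearMap.range f) + Module.finrank HH (LinearMap.range g) := by
  let E : LinearMap.range (f.prodMap g) ≃ₗ[HH] LinearMap.range f × LinearMap.range g :=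
    { toFun := fun z => (⟨z.1.1, by
        obtain ⟨x, hx⟩ := z.2
        exact ⟨x.1, by rw [← hx]; rfl⟩⟩, ⟨z.1.2, by
        obtain ⟨x, hx⟩ := z.2
        exact ⟨x.2, by rw [← hx]; rfl⟩⟩)
      map_add' := fun _ _ => rfl
      map_smul' := fun _ _ => rfl
      invFun := fun w => ⟨(w.1.1, w.2.1), by
        obtain ⟨⟨_, x, rfl⟩, ⟨_, y, rfl⟩⟩ := w
        exact ⟨(x, y), rfl⟩⟩
      left_inv := fun _ => rfl
      right_inv := fun _ => rfl }
  rw [E.finrank_eq, Module.finrank_prod]

/-- splitting off a cyclic block of maximal length -/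
theorem split (X : Module.End HH V) (a : ℕ) (h0 : X ^ (a + 1) = 0) (h1 : X ^ a ≠ 0) :
    ∃ (V₁ : Submodule HH V) (X₁ : Module.End HH V₁) (e : V ≃ₗ[HH] (Fin (a + 1) → HH) × V₁),
      X = tr e ((Sh a).prodMap X₁) := by
  obtain ⟨v, hv⟩ : ∃ v, (X ^ a) v ≠ 0 := by
    by_contra hcon
    push Not at hcon
    exact h1 (LinearMap.ext hcon)
  -- a functional
  obtain ⟨φ, hφ⟩ : ∃ φ : V →ₗ[HH] HH, φ ((X ^ a) v) = 1 := by
    let ι : HH →ₗ[HH] V := LinearMap.toSpanSingleton HH V ((X ^ a) v)
    have hinj : LinearMap.ker ι = ⊥ := by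
      rw [LinearMap.ker_eq_bot']
      intro q hq
      have : q • (X ^ a) v = 0 := hq
      exact (smul_eq_zero.mp this).resolve_right hv
    obtain ⟨φ, hφ⟩ := LinearMap.exists_leftInverse_of_injective ι hinj
    refine ⟨φ, ?_⟩
    have := LinearMap.congr_fun hφ 1
    simpa [ι] using this
  have hbig : ∀ m, a < m → X ^ m = 0 := by
    intro m hm
    obtain ⟨k, rfl⟩ := Nat.exists_eq_add_of_lt hm
    have : a + k + 1 = (a + 1) + k := by ring
    rw [this, pow_add, h0, zero_mul]
  let T : (Fin (a + 1) → HH) →ₗ[HH] V :=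
    { toFun := fun x => ∑ j, x j • (X ^ (j : ℕ)) v
      map_add' := by
        intro x y
        simp [add_smul, Finset.sum_add_distrib]
      map_smul' := by
        intro q x
        simp [mul_smul, Finset.smul_sum] }
  have hT : ∀ x, T x = ∑ j, x j • (X ^ (j : ℕ)) v := fun _ => rfl
  let Ψ : V →ₗ[HH] (Fin (a + 1) → HH) := LinearMap.pi fun i => φ ∘ₗ (X ^ (a - (i : ℕ)))
  have hΨ : ∀ u i, Ψ u i = φ ((X ^ (a - (i : ℕ))) u) := fun _ _ => rfl
  have hinj : Function.Injective (Ψ ∘ₗ T) := by
    rw [← LinearMap.ker_eq_bot, LinearMap.ker_eq_bot']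
    intro x hx
    have key : ∀ (n : ℕ) (i : Fin (a + 1)), (i : ℕ) = n → x i = 0 := by
      intro n
      induction n using Nat.strong_induction_on with
      | _ n ih =>
        intro i hi
        have h2 := congrFun hx i
        rw [LinearMap.comp_apply, hΨ, hT, map_sum, map_sum] at h2
        rw [Finset.sum_eq_single i] at h2
        · rw [map_smul, map_smul, ← Module.End.mul_apply, ← pow_add] at h2
          have h3 : a - (i : ℕ) + (i : ℕ) = a := by omega
          rw [h3, hφ] at h2
          simpa using h2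
        · intro j _ hj
          rcases lt_or_gt_of_ne (fun h => hj (Fin.ext h) : (j : ℕ) ≠ (i : ℕ)) with h | h
          · rw [ih j (by omega) j rfl]
            simp
          · rw [map_smul, map_smul, ← Module.End.mul_apply, ← pow_add, hbig _ (by omega)]
            simp
        · intro h
          exact absurd (Finset.mem_univ i) h
    funext i
    exact key i i rfl
  have hsurj : Function.Surjective (Ψ ∘ₗ T) := LinearMap.injective_iff_surjective.mp hinj
  let V₁ : Submodule HH V := LinearMap.ker Ψ
  have hmem : ∀ u, u ∈ V₁ ↔ ∀ m, φ ((X ^ m) u) = 0 := by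
    intro u
    constructor
    · intro hu m
      rcases Nat.lt_or_ge a m with h | h
      · rw [hbig m h]
        simp
      · have h2 := congrFun (LinearMap.mem_ker.mp hu) ⟨a - m, by omega⟩
        rw [hΨ] at h2
        have h3 : a - (a - m) = m := by omega
        simp only [h3] at h2
        exact h2
    · intro h
      apply LinearMap.mem_ker.mpr
      funext i
      rw [hΨ, h]
      rfl
  have hinv : ∀ u ∈ V₁, X u ∈ V₁ := by
    intro u hu
    rw [hmem] at hu ⊢
    intro m
    rw [← Module.End.mul_apply, ← pow_succ]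
    exact hu _
  let X₁ : Module.End HH V₁ := X.restrict hinv
  let D : ((Fin (a + 1) → HH) × V₁) →ₗ[HH] V := T.coprod V₁.subtype
  have hD : ∀ z, D z = T z.1 + z.2 := fun _ => rfl
  have hDinj : Function.Injective D := by
    rw [← LinearMap.ker_eq_bot, LinearMap.ker_eq_bot']
    rintro ⟨x, u⟩ hz
    rw [hD] at hz
    have h2 : Ψ (T x) = 0 := by
      have h3 := congrArg Ψ hz
      rw [map_add, map_zero] at h3
      have h4 : Ψ (u : V) = 0 := LinearMap.mem_ker.mp u.2
      rw [h4, add_zero] at h3
      exact h3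
    have h3 : x = 0 := hinj (by rw [LinearMap.comp_apply, h2, map_zero])
    rw [h3, map_zero, zero_add] at hz
    rw [h3]
    have h4 : u = 0 := Subtype.ext hz
    rw [h4]
    rfl
  have hDsurj : Function.Surjective D := by
    intro u
    obtain ⟨x, hx⟩ := hsurj (Ψ u)
    refine ⟨(x, ⟨u - T x, ?_⟩), ?_⟩
    · apply LinearMap.mem_ker.mpr
      rw [map_sub, ← hx]
      simp
    · rw [hD]
      simp
  let e' : ((Fin (a + 1) → HH) × V₁) ≃ₗ[HH] V := LinearEquiv.ofBijective D ⟨hDinj, hDsurj⟩
  have he' : ∀ z, e' z = T z.1 + z.2 := fun _ => rfl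
  refine ⟨V₁, X₁, e'.symm, ?_⟩
  have hXT : ∀ x, X (T x) = T (Sh a x) := by
    intro x
    rw [hT, hT, map_sum, Fin.sum_univ_castSucc, Fin.sum_univ_succ]
    rw [Sh_zero, zero_smul, zero_add]
    have h2 : X (x (Fin.last a) • (X ^ ((Fin.last a : Fin (a + 1)) : ℕ)) v) = 0 := by
      rw [map_smul, Fin.val_last, ← Module.End.mul_apply, ← pow_succ', h0]
      simp
    rw [h2, add_zero]
    refine Finset.sum_congr rfl fun j _ => ?_
    rw [Sh_succ, map_smul, Fin.val_castSucc, ← Module.End.mul_apply, ← pow_succ', Fin.val_succ]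
  ext v'
  obtain ⟨z, rfl⟩ := e'.surjective v'
  rw [tr_apply, e'.symm_apply_apply]
  change X (e' z) = e' ((Sh a) z.1, X₁ z.2)
  rw [he', he', map_add, hXT]
  rfl

lemma exists_index [Nontrivial V] {N : Module.End HH V} (h : IsNilpotent N) :
    ∃ a, N ^ (a + 1) = 0 ∧ N ^ a ≠ 0 := by
  classical
  have hm := Nat.find_spec h
  rcases Nat.eq_zero_or_pos (Nat.find h) with h0 | h0
  · rw [h0, pow_zero] at hm
    exact absurd hm one_ne_zero
  · refine ⟨Nat.find h - 1, ?_, ?_⟩
    · rw [Nat.sub_add_cancel h0]
      exact hm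
    · exact Nat.find_min h (by omega)

lemma finrank_split {a : ℕ} {V₁ : Submodule HH V} (e : V ≃ₗ[HH] (Fin (a + 1) → HH) × V₁) :
    Module.finrank HH V = a + 1 + Module.finrank HH V₁ := by
  rw [e.finrank_eq, Module.finrank_prod, Module.finrank_fin_fun]

lemma nil_of_split {a : ℕ} {V₁ : Submodule HH V} {e : V ≃ₗ[HH] (Fin (a + 1) → HH) × V₁}
    {X : Module.End HH V} {X₁ : Module.End HH V₁} (h : X = tr e ((Sh a).prodMap X₁)) {n : ℕ}
    (hn : X ^ n = 0) : X₁ ^ n = 0 := by
  rw [h, ← tr_pow, prod_pow] at hn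
  ext u
  have h1 := LinearMap.congr_fun hn (e.symm (0, u))
  rw [tr_apply, e.apply_symm_apply, LinearMap.zero_apply] at h1
  have h2 := e.symm.injective (h1.trans (map_zero e.symm).symm)
  have h3 := congrArg Prod.snd h2
  simpa using h3

lemma zero_iff_rk (N : Module.End HH V) : N = 0 ↔ Module.finrank HH (LinearMap.range N) = 0 := by
  rw [Submodule.finrank_eq_zero, LinearMap.range_eq_bot]

end

/-- nilpotent operators are classified by the ranks of their powers -/
theorem classify : ∀ (n : ℕ) (V V' : Type) [AddCommGroup V] [Module HH V] [Module.Finite HH V]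
    [AddCommGroup V'] [Module HH V'] [Module.Finite HH V'] (N : Module.End HH V)
    (N' : Module.End HH V'), Module.finrank HH V ≤ n → IsNilpotent N → IsNilpotent N' →
    (∀ j, Module.finrank HH (LinearMap.range (N ^ j)) = Module.finrank HH (LinearMap.range (N' ^ j))) →
    ∃ h : V ≃ₗ[HH] V', N = tr h N' := by
  intro n
  induction n with
  | zero =>
    intro V V' _ _ _ _ _ _ N N' hn _ _ hr
    have h0 : Module.finrank HH V = 0 := by omega
    have h1 := hr 0
    rw [pow_zero, pow_zero] at h1
    have h2 : LinearMap.range (1 : Module.End HH V) = ⊤ := LinearMap.range_id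
    have h3 : LinearMap.range (1 : Module.End HH V') = ⊤ := LinearMap.range_id
    rw [h2, h3, finrank_top, finrank_top, h0] at h1
    have s1 : Subsingleton V := Module.finrank_zero_iff.mp h0
    have s2 : Subsingleton V' := Module.finrank_zero_iff.mp h1.symm
    refine ⟨0, ?_⟩
    ext v
    exact Subsingleton.elim _ _
  | succ n ih =>
    intro V V' _ _ _ _ _ _ N N' hn hN hN' hr
    have h1 := hr 0
    rw [pow_zero, pow_zero] at h1
    have h2 : LinearMap.range (1 : Module.End HH V) = ⊤ := LinearMap.range_id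
    have h3 : LinearMap.range (1 : Module.End HH V') = ⊤ := LinearMap.range_id
    rw [h2, h3, finrank_top, finrank_top] at h1
    rcases subsingleton_or_nontrivial V with s1 | s1
    · have h0 : Module.finrank HH V = 0 := Module.finrank_zero_iff.mpr s1
      rw [h0] at h1
      have s2 : Subsingleton V' := Module.finrank_zero_iff.mp h1.symm
      refine ⟨0, ?_⟩
      ext v
      exact Subsingleton.elim _ _
    · obtain ⟨a, ha0, ha1⟩ := exists_index hN
      have hb0 : N' ^ (a + 1) = 0 := by
        rw [zero_iff_rk, ← hr, ← zero_iff_rk]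
        exact ha0
      have hb1 : N' ^ a ≠ 0 := by
        rw [Ne, zero_iff_rk, ← hr, ← zero_iff_rk]
        exact ha1
      obtain ⟨V₁, X₁, e, he⟩ := split N a ha0 ha1
      obtain ⟨V₁', X₁', e', he'⟩ := split N' a hb0 hb1
      have hd := finrank_split e
      obtain ⟨h, hh⟩ := ih V₁ V₁' X₁ X₁' (by omega) ⟨a + 1, nil_of_split he ha0⟩
        ⟨a + 1, nil_of_split he' hb0⟩ (by
          intro j
          have h4 := hr j
          rw [he, he', ← tr_pow, ← tr_pow, rk_tr, rk_tr, prod_pow, prod_pow, rk_prod, rk_prod] at h4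
          omega)
      refine ⟨e.trans (((LinearEquiv.refl HH _).prodCongr h).trans e'.symm), ?_⟩
      rw [he]
      ext v
      obtain ⟨z, rfl⟩ := e.symm.surjective v
      rw [tr_apply, tr_apply, e.apply_symm_apply, he']
      simp only [LinearEquiv.trans_apply, LinearEquiv.apply_symm_apply, tr_apply,
        LinearEquiv.symm_trans_apply, LinearEquiv.symm_symm]
      congr 1
      rw [hh]
      rfl

/-- a nilpotent operator commutes with a complex structure -/
theorem exJ : ∀ (n : ℕ) (V : Type) [AddCommGroup V] [Module HH V] [Module.Finite HH V]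
    (N : Module.End HH V), Module.finrank HH V ≤ n → IsNilpotent N →
    ∃ J : Module.End HH V, J * J = -1 ∧ Commute J N := by
  intro n
  induction n with
  | zero =>
    intro V _ _ _ N hn _
    have h0 : Module.finrank HH V = 0 := by omega
    have s1 : Subsingleton V := Module.finrank_zero_iff.mp h0
    exact ⟨0, by ext v; exact Subsingleton.elim _ _, Commute.zero_left _⟩
  | succ n ih =>
    intro V _ _ _ N hn hN
    rcases subsingleton_or_nontrivial V with s1 | s1
    · exact ⟨0, by ext v; exact Subsingleton.elim _ _, Commute.zero_left _⟩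
    · obtain ⟨a, ha0, ha1⟩ := exists_index hN
      obtain ⟨V₁, X₁, e, he⟩ := split N a ha0 ha1
      have hd := finrank_split e
      obtain ⟨J₁, hJ1, hJ2⟩ := ih V₁ X₁ (by omega) ⟨a + 1, nil_of_split he ha0⟩
      let qi : HH := ⟨0, 1, 0, 0⟩
      have hqi : qi * qi = -1 := by
        change ((⟨0, 1, 0, 0⟩ : HH) * (⟨0, 1, 0, 0⟩ : HH)) = -1
        rw [QuaternionAlgebra.mk_mul_mk]
        apply Quaternion.ext <;> simp
      let Ji : Module.End HH (Fin (a + 1) → HH) :=
        { toFun := fun x j => x j * qi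
          map_add' := by
            intro x y
            funext j
            simp [add_mul]
          map_smul' := by
            intro q x
            funext j
            simp [mul_assoc] }
      have hJi : ∀ x j, Ji x j = x j * qi := fun _ _ => rfl
      have hJi2 : Ji * Ji = -1 := by
        refine LinearMap.ext fun x => ?_
        funext j
        rw [Module.End.mul_apply, hJi, hJi, mul_assoc, hqi]
        simp
      have hJiS : Ji * Sh a = Sh a * Ji := by
        refine LinearMap.ext fun x => ?_
        funext j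
        rw [Module.End.mul_apply, Module.End.mul_apply, hJi]
        refine Fin.cases ?_ (fun i => ?_) j
        · rw [Sh_zero, Sh_zero, zero_mul]
        · rw [Sh_succ, Sh_succ, hJi]
      refine ⟨tr e (Ji.prodMap J₁), ?_, ?_⟩
      · rw [← tr_mul, prod_mul, hJi2, hJ1]
        exact tr_neg_one e
      · change tr e (Ji.prodMap J₁) * N = N * tr e (Ji.prodMap J₁)
        rw [he, ← tr_mul, ← tr_mul, prod_mul, prod_mul, hJiS, hJ2.eq]

end Pool.Agent.X128.QN
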