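import Pool.Agent.X128.QN.B

/-!
# The units commuting with a nilpotent operator are path connected
-/

set_option autoImplicit false
set_option linter.unusedSectionVars false

noncomputable section

namespace Pool.Agent.X128.QN

section

variable {V W : Type} [AddCommGroup V] [Module HH V] [Module ℝ V] [IsScalarTower ℝ HH V]
  [Module.Finite HH V] [AddCommGroup W] [Module HH W] [Module ℝ W] [IsScalarTower ℝ HH W]
  [Module.Finite HH W]

instance finEnd : Module.Finite ℝ (Module.End HH V) := by
  haveI : Module.Finite ℝ V := Module.Finite.trans HH V
  let f : Module.End HH V →ₗ[ℝ] Module.End ℝ V :=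
    { toFun := fun T => T.restrictScalars ℝ
      map_add' := fun _ _ => rfl
      map_smul' := fun _ _ => rfl }
  refine Module.Finite.of_injective f ?_
  intro T T' h
  ext v
  exact LinearMap.congr_fun h v

lemma FC.tr (e : V ≃ₗ[HH] W) {f : ℝ → Module.End HH W} (h : FC f) : FC (fun t => tr e (f t)) := by
  let φ : Module.End HH W →ₗ[ℝ] Module.End HH V :=
    { toFun := fun f => Pool.Agent.X128.QN.tr e f
      map_add' := by
        intro f g
        ext v
        simp [tr_apply]
      map_smul' := by
        intro r f
        ext v
        rw [tr_apply, LinearMap.smul_apply, RingHom.id_apply, LinearMap.smul_apply, tr_apply]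
        exact (e.symm : W →ₗ[HH] V).map_smul_of_tower r _ }
  exact h.map φ

lemma FC.prod {f : ℝ → Module.End HH V} {g : ℝ → Module.End HH W} (hf : FC f) (hg : FC g) :
    FC (fun t => ((f t).prodMap (g t) : Module.End HH (V × W))) := by
  let φ : Module.End HH V →ₗ[ℝ] Module.End HH (V × W) :=
    { toFun := fun f => f.prodMap 0
      map_add' := by
        intro f g
        refine LinearMap.ext fun v => ?_
        apply Prod.ext <;> simp
      map_smul' := by
        intro r f
        refine LinearMap.ext fun v => ?_
        apply Prod.ext <;> simp }
  let ψ : Module.End HH W →ₗ[ℝ] Module.End HH (V × W) :=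
    { toFun := fun f => LinearMap.prodMap 0 f
      map_add' := by
        intro f g
        refine LinearMap.ext fun v => ?_
        apply Prod.ext <;> simp
      map_smul' := by
        intro r f
        refine LinearMap.ext fun v => ?_
        apply Prod.ext <;> simp }
  have h1 : (fun t => ((f t).prodMap (g t) : Module.End HH (V × W))) =
      fun t => φ (f t) + ψ (g t) := by
    funext t
    refine LinearMap.ext fun v => ?_
    apply Prod.ext <;> simp [φ, ψ]
  rw [h1]
  exact FC.add _ _ (hf.map φ) (hg.map ψ)

lemma isUnit_tr (e : V ≃ₗ[HH] W) {f : Module.End HH W} (h : IsUnit f) : IsUnit (tr e f) := by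
  obtain ⟨u, rfl⟩ := h
  refine ⟨⟨tr e u, tr e (u⁻¹ : (Module.End HH W)ˣ), ?_, ?_⟩, rfl⟩
  · rw [← tr_mul, u.mul_inv, tr_one]
  · rw [← tr_mul, u.inv_mul, tr_one]

lemma isUnit_prod {f : Module.End HH V} {g : Module.End HH W} (hf : IsUnit f) (hg : IsUnit g) :
    IsUnit (f.prodMap g : Module.End HH (V × W)) := by
  obtain ⟨u, rfl⟩ := hf
  obtain ⟨w, rfl⟩ := hg
  refine ⟨⟨(u : Module.End HH V).prodMap (w : Module.End HH W),
    ((u⁻¹ : (Module.End HH V)ˣ) : Module.End HH V).prodMap
      ((w⁻¹ : (Module.End HH W)ˣ) : Module.End HH W), ?_, ?_⟩, rfl⟩
  · rw [prod_mul, u.mul_inv, w.mul_inv, prod_one]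
  · rw [prod_mul, u.inv_mul, w.inv_mul, prod_one]

lemma isUnit_rsmul {E : Type} [Ring E] [Algebra ℝ E] {r : ℝ} (hr : r ≠ 0) {x : E} (hx : IsUnit x) :
    IsUnit (r • x) := by
  rw [Algebra.smul_def]
  exact (IsUnit.map (algebraMap ℝ E) (IsUnit.mk0 r hr)).mul hx

lemma isUnit_of_inj {f : Module.End HH V} (h : LinearMap.ker f = ⊥) : IsUnit f := by
  have hinj : Function.Injective f := LinearMap.ker_eq_bot.mp h
  have hsurj : Function.Surjective f := LinearMap.injective_iff_surjective.mp hinj
  let e := LinearEquiv.ofBijective f ⟨hinj, hsurj⟩
  refine ⟨⟨f, (e.symm : V →ₗ[HH] V), ?_, ?_⟩, rfl⟩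
  · ext v
    exact e.apply_symm_apply v
  · ext v
    exact e.symm_apply_apply v

/-- the clamp -/
def cl (t : ℝ) : ℝ := max 0 (min 1 t)

lemma cl_cont : Continuous cl := by
  unfold cl
  fun_prop

lemma cl_nonneg (t : ℝ) : 0 ≤ cl t := le_max_left _ _

lemma cl_le (t : ℝ) : cl t ≤ 1 := max_le zero_le_one (min_le_left _ _)

lemma cl_zero : cl 0 = 0 := by simp [cl]

lemma cl_one : cl 1 = 1 := by simp [cl]

lemma restr_eq {p q : Submodule HH V} (h : IsCompl p q) {B : Module.End HH V}
    (hp : ∀ x ∈ p, B x ∈ p) (hq : ∀ x ∈ q, B x ∈ q) :
    B = tr (Submodule.prodEquivOfIsCompl p q h).symm ((B.restrict hp).prodMap (B.restrict hq)) := by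
  ext v
  obtain ⟨z, rfl⟩ := (Submodule.prodEquivOfIsCompl p q h).surjective v
  rw [tr_apply, LinearEquiv.symm_apply_apply, LinearEquiv.symm_symm]
  rw [LinearMap.prodMap_apply, Submodule.coe_prodEquivOfIsCompl', Submodule.coe_prodEquivOfIsCompl',
    map_add]
  rfl

end

theorem cent : ∀ (n : ℕ) (V : Type) [AddCommGroup V] [Module HH V] [Module ℝ V]
    [IsScalarTower ℝ HH V] [Module.Finite HH V] (A g : Module.End HH V),
    Module.finrank HH V ≤ n → IsNilpotent A → IsUnit g → Commute g A → UJ A g 1 := by
  intro n
  induction n with
  | zero =>
    intro V _ _ _ _ _ A g hn _ _ _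
    have h0 : Module.finrank HH V = 0 := by omega
    have s1 : Subsingleton V := Module.finrank_zero_iff.mp h0
    have : g = 1 := by
      ext v
      exact Subsingleton.elim _ _
    rw [this]
    exact Relation.ReflTransGen.refl
  | succ n ih =>
    intro V _ _ _ _ _ A g hn hA hg hgA
    rcases subsingleton_or_nontrivial V with s1 | s1
    · have : g = 1 := by
        ext v
        exact Subsingleton.elim _ _
      rw [this]
      exact Relation.ReflTransGen.refl
    by_cases hneg : ∀ l : ℝ, l < 0 → IsUnit (g - l • (1 : Module.End HH V))
    · -- no negative real eigenvalue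
      refine Relation.ReflTransGen.single ⟨fun t => (1 - cl t) • g + cl t • (1 : Module.End HH V),
        FC.add _ _ (FC.single _ (continuous_const.sub cl_cont) g) (FC.single _ cl_cont 1), ?_, ?_, ?_⟩
      · intro t
        refine ⟨?_, ?_⟩
        · rcases eq_or_lt_of_le (cl_le t) with h1 | h1
          · simp only [h1, sub_self, zero_smul, one_smul, zero_add]
            exact isUnit_one
          · have h2 : 0 < 1 - cl t := by linarith
            have h3 : (1 - cl t) • g + cl t • (1 : Module.End HH V) =
                (1 - cl t) • (g - (-(cl t / (1 - cl t))) • (1 : Module.End HH V)) := by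
              rw [smul_sub, smul_smul, mul_neg, mul_div_cancel₀ _ h2.ne', neg_smul, sub_neg_eq_add]
            change IsUnit ((1 - cl t) • g + cl t • (1 : Module.End HH V))
            rw [h3]
            apply isUnit_rsmul h2.ne'
            rcases eq_or_lt_of_le (cl_nonneg t) with h4 | h4
            · rw [← h4]
              simpa using hg
            · apply hneg
              have := div_pos h4 h2
              linarith
        · exact (hgA.smul_left _).add_left ((Commute.one_left A).smul_left _)
      · simp [cl_zero]
      · simp [cl_one]
    · push Not at hneg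
      obtain ⟨l, hl, hnu⟩ := hneg
      set f : Module.End HH V := g - l • (1 : Module.End HH V) with hf
      have hgf : Commute g f := (Commute.refl g).sub_right ((Commute.one_right g).smul_right l)
      have hAf : Commute A f := hgA.symm.sub_right ((Commute.one_right A).smul_right l)
      obtain ⟨m, hm1, hm⟩ := ((Filter.eventually_ge_atTop 1).and
        (LinearMap.eventually_isCompl_ker_pow_range_pow f)).exists
      have hpres : ∀ B : Module.End HH V, Commute B f →
          (∀ x ∈ LinearMap.ker (f ^ m), B x ∈ LinearMap.ker (f ^ m)) ∧
          (∀ x ∈ LinearMap.range (f ^ m), B x ∈ LinearMap.range (f ^ m)) := by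
        intro B hB
        have hB' : Commute B (f ^ m) := hB.pow_right m
        constructor
        · intro x hx
          rw [LinearMap.mem_ker] at hx ⊢
          have := LinearMap.congr_fun hB'.eq x
          rw [Module.End.mul_apply, Module.End.mul_apply, hx, map_zero] at this
          exact this.symm
        · rintro _ ⟨y, rfl⟩
          have := LinearMap.congr_fun hB'.eq y
          rw [Module.End.mul_apply, Module.End.mul_apply] at this
          exact ⟨B y, this.symm⟩
      by_cases hq : LinearMap.range (f ^ m) = ⊥
      · -- `f` is nilpotent
        have hfm : f ^ m = 0 := LinearMap.range_eq_bot.mp hq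
        have hfn : IsNilpotent f := ⟨m, hfm⟩
        obtain ⟨J, hJ, hJA⟩ := exJ _ V A le_rfl hA
        have p1 : UP A g (l • (1 : Module.End HH V)) := by
          refine ⟨fun t => l • (1 : Module.End HH V) + (1 - cl t) • f,
            FC.add _ _ (FC.const _) (FC.single _ (continuous_const.sub cl_cont) f), ?_, ?_, ?_⟩
          · intro t
            refine ⟨?_, ?_⟩
            · apply IsNilpotent.isUnit_add_left_of_commute
              · obtain ⟨m, hm⟩ := hfn
                exact ⟨m, by rw [smul_pow, hm, smul_zero]⟩
              · exact isUnit_rsmul hl.ne isUnit_one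
              · exact ((Commute.one_right f).smul_right l).smul_left _
            · exact ((Commute.one_left A).smul_left _).add_left (hAf.symm.smul_left _)
          · simp [cl_zero, hf]
          · simp [cl_one]
        have p2 : UP A (l • (1 : Module.End HH V)) ((-1 : ℝ) • (1 : Module.End HH V)) := by
          refine ⟨fun t => ((1 - cl t) * l - cl t) • (1 : Module.End HH V),
            FC.single _ (((continuous_const.sub cl_cont).mul continuous_const).sub cl_cont) _, ?_, ?_, ?_⟩
          · intro t
            refine ⟨isUnit_rsmul ?_ isUnit_one, (Commute.one_left A).smul_left _⟩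
            have h1 := cl_nonneg t
            have h2 := cl_le t
            rcases eq_or_lt_of_le h2 with h3 | h3
            · rw [h3]
              norm_num
            · have h4 : (1 - cl t) * l < 0 := mul_neg_of_pos_of_neg (by linarith) hl
              exact (by linarith : (1 - cl t) * l - cl t < 0).ne
          · simp [cl_zero]
          · simp [cl_one]
        have p3 : UP A ((-1 : ℝ) • (1 : Module.End HH V)) 1 := by
          refine ⟨fun t => (-Real.cos (Real.pi * t)) • (1 : Module.End HH V) + Real.sin (Real.pi * t) • J,
            FC.add _ _ (FC.single _ (by fun_prop) _) (FC.single _ (by fun_prop) _), ?_, ?_, ?_⟩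
          · intro t
            refine ⟨?_, ?_⟩
            · have hcs := Real.sin_sq_add_cos_sq (Real.pi * t)
              have e1 : ((-Real.cos (Real.pi * t)) • (1 : Module.End HH V) + Real.sin (Real.pi * t) • J) *
                  ((-Real.cos (Real.pi * t)) • (1 : Module.End HH V) - Real.sin (Real.pi * t) • J) =
                  (Real.cos (Real.pi * t) ^ 2) • (1 : Module.End HH V) -
                    (Real.sin (Real.pi * t) ^ 2) • (J * J) := by
                rw [add_mul, mul_sub, mul_sub]
                simp only [smul_mul_smul_comm, one_mul, mul_one]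
                have : (-Real.cos (Real.pi * t) * Real.sin (Real.pi * t)) • J =
                    (Real.sin (Real.pi * t) * -Real.cos (Real.pi * t)) • J := by
                  rw [mul_comm]
                rw [this]
                have e3 : -Real.cos (Real.pi * t) * -Real.cos (Real.pi * t) =
                    Real.cos (Real.pi * t) ^ 2 := by ring
                have e4 : Real.sin (Real.pi * t) * Real.sin (Real.pi * t) =
                    Real.sin (Real.pi * t) ^ 2 := by ring
                rw [e3, e4]
                abel
              have e2 : ((-Real.cos (Real.pi * t)) • (1 : Module.End HH V) - Real.sin (Real.pi * t) • J) *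
                  ((-Real.cos (Real.pi * t)) • (1 : Module.End HH V) + Real.sin (Real.pi * t) • J) =
                  (Real.cos (Real.pi * t) ^ 2) • (1 : Module.End HH V) -
                    (Real.sin (Real.pi * t) ^ 2) • (J * J) := by
                rw [sub_mul, mul_add, mul_add]
                simp only [smul_mul_smul_comm, one_mul, mul_one]
                have : (-Real.cos (Real.pi * t) * Real.sin (Real.pi * t)) • J =
                    (Real.sin (Real.pi * t) * -Real.cos (Real.pi * t)) • J := by
                  rw [mul_comm]
                rw [this]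
                have e3 : -Real.cos (Real.pi * t) * -Real.cos (Real.pi * t) =
                    Real.cos (Real.pi * t) ^ 2 := by ring
                have e4 : Real.sin (Real.pi * t) * Real.sin (Real.pi * t) =
                    Real.sin (Real.pi * t) ^ 2 := by ring
                rw [e3, e4]
                abel
              have e5 : (Real.cos (Real.pi * t) ^ 2) • (1 : Module.End HH V) -
                    (Real.sin (Real.pi * t) ^ 2) • (J * J) = 1 := by
                rw [hJ, smul_neg, sub_neg_eq_add, ← add_smul, add_comm (Real.cos _ ^ 2), hcs, one_smul]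
              exact ⟨⟨_, _, e1.trans e5, e2.trans e5⟩, rfl⟩
            · exact ((Commute.one_left A).smul_left _).add_left (hJA.smul_left _)
          · simp
          · simp
        exact Relation.ReflTransGen.head p1 (Relation.ReflTransGen.head p2
          (Relation.ReflTransGen.single p3))
      · -- split
        have hp : LinearMap.ker (f ^ m) ≠ ⊥ := by
          intro h0
          apply hnu
          apply isUnit_of_inj
          rw [eq_bot_iff]
          intro x hx
          rw [← h0, LinearMap.mem_ker]
          obtain ⟨k, rfl⟩ := Nat.exists_eq_add_of_le' hm1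
          rw [pow_succ, Module.End.mul_apply, LinearMap.mem_ker.mp hx, map_zero]
        obtain ⟨hA1, hA2⟩ := hpres A hAf
        obtain ⟨hg1, hg2⟩ := hpres g hgf
        set p := LinearMap.ker (f ^ m) with hpdef
        set q := LinearMap.range (f ^ m) with hqdef
        set e := (Submodule.prodEquivOfIsCompl p q hm).symm with he
        have eA := restr_eq hm hA1 hA2
        have eg := restr_eq hm hg1 hg2
        rw [← he] at eA eg
        have hfr : Module.finrank HH p + Module.finrank HH q = Module.finrank HH V :=
          Submodule.finrank_add_eq_of_isCompl hm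
        have hp0 : 0 < Module.finrank HH p := by
          rw [Nat.pos_iff_ne_zero, Ne, Submodule.finrank_eq_zero]
          exact hp
        have hq0 : 0 < Module.finrank HH q := by
          rw [Nat.pos_iff_ne_zero, Ne, Submodule.finrank_eq_zero]
          exact hq
        have hginj : Function.Injective g := by
          obtain ⟨u, hu⟩ := hg
          intro x y hxy
          have h1 : ∀ z, (((u⁻¹ : (Module.End HH V)ˣ) : Module.End HH V)) (g z) = z := by
            intro z
            rw [← hu, ← Module.End.mul_apply, u.inv_mul, Module.End.one_apply]
          rw [← h1 x, ← h1 y, hxy]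
        have hunit : ∀ (r : Submodule HH V) (hr : ∀ x ∈ r, g x ∈ r), IsUnit (g.restrict hr) := by
          intro r hr
          apply isUnit_of_inj
          rw [LinearMap.ker_eq_bot]
          intro x y hxy
          apply Subtype.ext
          exact hginj (congrArg Subtype.val hxy)
        have hnil : ∀ (r : Submodule HH V) (hr : ∀ x ∈ r, A x ∈ r), IsNilpotent (A.restrict hr) := by
          intro r hr
          obtain ⟨k, hk⟩ := hA
          have hkp : ∀ (k : ℕ) (x : r), (((A.restrict hr) ^ k) x : V) = (A ^ k) x := by
            intro k
            induction k with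
            | zero => intro x; rfl
            | succ k ihk =>
              intro x
              rw [pow_succ, Module.End.mul_apply, ihk, pow_succ, Module.End.mul_apply]
              rfl
          refine ⟨k, ?_⟩
          refine LinearMap.ext fun x => Subtype.ext ?_
          rw [hkp, hk]
          rfl
        have hcom : ∀ (r : Submodule HH V) (hr : ∀ x ∈ r, A x ∈ r) (hr' : ∀ x ∈ r, g x ∈ r),
            Commute (g.restrict hr') (A.restrict hr) := by
          intro r hr hr'
          refine LinearMap.ext fun x => Subtype.ext ?_
          exact LinearMap.congr_fun hgA.eq (x : V)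
        have i1 := ih p (A.restrict hA1) (g.restrict hg1) (by omega) (hnil p hA1) (hunit p hg1)
          (hcom p hA1 hg1)
        have i2 := ih q (A.restrict hA2) (g.restrict hg2) (by omega) (hnil q hA2) (hunit q hg2)
          (hcom q hA2 hg2)
        have j1 := i1.map (A' := A) (fun x => tr e (x.prodMap (g.restrict hg2)))
          (fun f hf => (hf.prod (FC.const _)).tr e)
          (fun x hx => isUnit_tr e (isUnit_prod hx (hunit q hg2)))
          (fun x hx => by
            change tr e (x.prodMap (g.restrict hg2)) * A = A * tr e (x.prodMap (g.restrict hg2))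
            conv_lhs => rw [eA]
            conv_rhs => rw [eA]
            rw [← tr_mul, ← tr_mul, prod_mul, prod_mul, hx.eq, (hcom q hA2 hg2).eq])
        have j2 := i2.map (A' := A) (fun x => tr e (LinearMap.prodMap 1 x))
          (fun f hf => ((FC.const _).prod hf).tr e)
          (fun x hx => isUnit_tr e (isUnit_prod isUnit_one hx))
          (fun x hx => by
            change tr e (LinearMap.prodMap 1 x) * A = A * tr e (LinearMap.prodMap 1 x)
            conv_lhs => rw [eA]
            conv_rhs => rw [eA]
            rw [← tr_mul, ← tr_mul, prod_mul, prod_mul, hx.eq, one_mul, mul_one])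
        rw [← eg] at j1
        rw [prod_one, tr_one] at j2
        exact Relation.ReflTransGen.trans j1 j2

end Pool.Agent.X128.QN
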