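import Pool.Agent.X128.QN.C

/-!
# Raising the index of a root, and the main induction
-/

set_option autoImplicit false
set_option linter.unusedSectionVars false

noncomputable section

namespace Pool.Agent.X128.QN

section

variable {V : Type} [AddCommGroup V] [Module HH V] [Module ℝ V] [IsScalarTower ℝ HH V]
  [Module.Finite HH V]

/-- `u ↦ φ(X^m u) • X^l w` -/
def op (X : Module.End HH V) (φ : V →ₗ[HH] HH) (w : V) (m l : ℕ) : Module.End HH V :=
  (LinearMap.toSpanSingleton HH V ((X ^ l) w)) ∘ₗ φ ∘ₗ (X ^ m)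

lemma op_apply (X : Module.End HH V) (φ : V →ₗ[HH] HH) (w : V) (m l : ℕ) (u : V) :
    op X φ w m l u = φ ((X ^ m) u) • (X ^ l) w := rfl

lemma pow_op (X : Module.End HH V) (φ : V →ₗ[HH] HH) (w : V) (j m l : ℕ) :
    X ^ j * op X φ w m l = op X φ w m (l + j) := by
  ext u
  rw [Module.End.mul_apply, op_apply, op_apply, map_smul, ← Module.End.mul_apply, ← pow_add,
    add_comm j l]

lemma op_pow (X : Module.End HH V) (φ : V →ₗ[HH] HH) (w : V) (j m l : ℕ) :
    op X φ w m l * X ^ j = op X φ w (m + j) l := by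
  ext u
  rw [Module.End.mul_apply, op_apply, op_apply, ← Module.End.mul_apply, ← pow_add]

lemma op_op {X : Module.End HH V} {φ : V →ₗ[HH] HH} {w : V} (hφ : ∀ j, φ ((X ^ j) w) = 0)
    (m l m' l' : ℕ) : op X φ w m l * op X φ w m' l' = 0 := by
  ext u
  rw [Module.End.mul_apply, op_apply, op_apply, map_smul, map_smul, ← Module.End.mul_apply, ← pow_add,
    hφ, smul_zero, zero_smul]
  rfl

theorem raise_aux {X : Module.End HH V} {φ : V →ₗ[HH] HH} {w v : V} {p k a b : ℕ} (hp : 0 < p)
    (hφ : ∀ j, φ ((X ^ j) w) = 0) (hX : X ^ (a + 1) = 0) (hv : φ ((X ^ a) v) ≠ 0)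
    (hw : (X ^ (b + 1)) w = 0) (hw' : (X ^ b) w ≠ 0) (hkb : k * p ≤ b) (ha : a + 1 < (k + 1) * p) :
    ∃ Y, RP p (X ^ p) X Y ∧ Y ^ (a + 1) ≠ 0 := by
  have hzl : ∀ m l, b < l → op X φ w m l = 0 := by
    intro m l hl
    ext u
    rw [op_apply]
    obtain ⟨c, rfl⟩ := Nat.exists_eq_add_of_lt hl
    have : b + c + 1 = c + (b + 1) := by ring
    rw [this, pow_add, Module.End.mul_apply, hw]
    simp
  have hzm : ∀ m l, a < m → op X φ w m l = 0 := by
    intro m l hm
    ext u
    rw [op_apply]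
    obtain ⟨c, rfl⟩ := Nat.exists_eq_add_of_lt hm
    have : a + c + 1 = (a + 1) + c := by ring
    rw [this, pow_add, hX, zero_mul]
    simp
  set E := op X φ w 0 b with hE
  set D : Module.End HH V := ∑ i ∈ Finset.range k, op X φ w ((i + 1) * p - 1) (b - (i + 1) * p) with hD
  have hDD : D * D = 0 := by
    rw [hD, Finset.sum_mul_sum]
    exact Finset.sum_eq_zero fun i _ => Finset.sum_eq_zero fun j _ => op_op hφ _ _ _ _
  have hDop : ∀ m l, D * op X φ w m l = 0 := by
    intro m l
    rw [hD, Finset.sum_mul]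
    exact Finset.sum_eq_zero fun i _ => op_op hφ _ _ _ _
  have hopD : ∀ m l, op X φ w m l * D = 0 := by
    intro m l
    rw [hD, Finset.mul_sum]
    exact Finset.sum_eq_zero fun i _ => op_op hφ _ _ _ _
  -- powers of `X + t E`
  have hpow : ∀ (t : ℝ) (m : ℕ), (X + t • E) ^ (m + 1) = X ^ (m + 1) + t • op X φ w m b := by
    intro t m
    induction m with
    | zero => simp [hE]
    | succ m ih =>
      rw [pow_succ, ih, add_mul, mul_add, mul_add, ← pow_succ]
      have e1 : X ^ (m + 1) * (t • E) = 0 := by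
        rw [mul_smul_comm, hE, pow_op, hzl _ _ (by omega), smul_zero]
      have e2 : (t • op X φ w m b) * X = t • op X φ w (m + 1) b := by
        rw [smul_mul_assoc]
        have := op_pow X φ w 1 m b
        rw [pow_one] at this
        rw [this]
      have e3 : (t • op X φ w m b) * (t • E) = 0 := by
        rw [smul_mul_smul_comm, hE, op_op hφ, smul_zero]
      rw [e1, e2, e3, add_zero, add_zero]
  have hAD : X ^ p * D + op X φ w ((k + 1) * p - 1) (b - k * p) =
      D * X ^ p + op X φ w (p - 1) b := by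
    have e1 : X ^ p * D = ∑ i ∈ Finset.range k, op X φ w ((i + 1) * p - 1) (b - i * p) := by
      rw [hD, Finset.mul_sum]
      refine Finset.sum_congr rfl fun i hi => ?_
      rw [pow_op]
      congr 1
      have h1 : (i + 1) * p ≤ k * p := Nat.mul_le_mul_right p (Finset.mem_range.mp hi)
      have h2 : (i + 1) * p = i * p + p := by ring
      omega
    have e2 : D * X ^ p = ∑ i ∈ Finset.range k, op X φ w ((i + 1 + 1) * p - 1) (b - (i + 1) * p) := by
      rw [hD, Finset.sum_mul]
      refine Finset.sum_congr rfl fun i hi => ?_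
      rw [op_pow]
      congr 1
      have h2 : (i + 1 + 1) * p = (i + 1) * p + p := by ring
      have h3 : 0 < (i + 1) * p := Nat.mul_pos (Nat.succ_pos i) hp
      omega
    rw [e1, e2, ← Finset.sum_range_succ (fun i => op X φ w ((i + 1) * p - 1) (b - i * p)),
      Finset.sum_range_succ' (fun i => op X φ w ((i + 1) * p - 1) (b - i * p))]
    congr 1
    simp
  rw [hzm _ (b - k * p) (by omega), add_zero] at hAD
  -- the path
  have hinv1 : ∀ t : ℝ, (1 + t • D) * (1 - t • D) = 1 := by
    intro t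
    rw [mul_sub, add_mul, add_mul, smul_mul_smul_comm, hDD, smul_zero]
    simp
  have hinv2 : ∀ t : ℝ, (1 - t • D) * (1 + t • D) = 1 := by
    intro t
    rw [mul_add, sub_mul, sub_mul, smul_mul_smul_comm, hDD, smul_zero]
    simp
  let Z : ℝ → Module.End HH V := fun t => (1 + t • D) * (X + t • E) * (1 - t • D)
  refine ⟨Z 1, ⟨Z, ?_, ?_, ?_, rfl⟩, ?_⟩
  · have f1 : FC (fun t : ℝ => (1 : Module.End HH V) + t • D) :=
      FC.add _ _ (FC.const _) (FC.single _ continuous_id D)
    have f2 : FC (fun t : ℝ => X + t • E) := FC.add _ _ (FC.const _) (FC.single _ continuous_id E)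
    have f3 : FC (fun t : ℝ => (1 : Module.End HH V) - t • D) := by
      have : (fun t : ℝ => (1 : Module.End HH V) - t • D) = fun t : ℝ => 1 + (-t) • D := by
        funext t
        rw [neg_smul, sub_eq_add_neg]
      rw [this]
      exact FC.add _ _ (FC.const _) (FC.single _ continuous_neg D)
    exact (f1.mul f2).mul f3
  · intro t
    change ((1 + t • D) * (X + t • E) * (1 - t • D)) ^ p = X ^ p
    rw [conj_pow' (hinv2 t) (hinv1 t)]
    obtain ⟨m, rfl⟩ := Nat.exists_eq_add_of_lt hp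
    rw [zero_add, hpow]
    rw [zero_add, Nat.add_sub_cancel] at hAD
    have h1 : D * X ^ (m + 1) * D = 0 := by
      have : D * X ^ (m + 1) = X ^ (m + 1) * D - op X φ w m b := by rw [hAD]; abel
      rw [this, sub_mul, mul_assoc, hDD, mul_zero, hopD, sub_zero]
    have h2 : (1 + t • D) * (X ^ (m + 1) + t • op X φ w m b) =
        X ^ (m + 1) + t • (X ^ (m + 1) * D) := by
      rw [add_mul, one_mul, mul_add, smul_mul_assoc, smul_mul_smul_comm, hDop, smul_zero, add_zero,
        hAD, smul_add]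
      abel
    rw [h2, mul_sub, mul_one, add_mul, mul_smul_comm, smul_mul_smul_comm, mul_assoc (X ^ (m + 1)) D D,
      hDD, mul_zero, smul_zero]
    abel
  · change (1 + (0 : ℝ) • D) * (X + (0 : ℝ) • E) * (1 - (0 : ℝ) • D) = X
    simp
  · change ((1 + (1 : ℝ) • D) * (X + (1 : ℝ) • E) * (1 - (1 : ℝ) • D)) ^ (a + 1) ≠ 0
    have h1s : (1 : ℝ) • op X φ w a b = op X φ w a b := one_smul _ _
    rw [conj_pow' (hinv2 1) (hinv1 1), hpow, hX, zero_add, h1s]
    intro h0
    have h1 : op X φ w a b = (1 - (1 : ℝ) • D) * ((1 + (1 : ℝ) • D) * op X φ w a b *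
        (1 - (1 : ℝ) • D)) * (1 + (1 : ℝ) • D) := by
      calc op X φ w a b = ((1 - (1 : ℝ) • D) * (1 + (1 : ℝ) • D)) * op X φ w a b *
          ((1 - (1 : ℝ) • D) * (1 + (1 : ℝ) • D)) := by rw [hinv2, one_mul, mul_one]
        _ = _ := by simp only [mul_assoc]
    rw [h0, mul_zero, zero_mul] at h1
    have h2 := LinearMap.congr_fun h1 v
    rw [op_apply, LinearMap.zero_apply] at h2
    rcases smul_eq_zero.mp h2 with h | h
    · exact hv h
    · exact hw' h

theorem raise {X : Module.End HH V} {p k a : ℕ} (hp : 0 < p) (h0 : X ^ (a + 1) = 0)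
    (h1 : X ^ a ≠ 0) (ha : a + 1 < (k + 1) * p)
    (hr : a + 1 - k * p < Module.finrank HH (LinearMap.range (X ^ (k * p)))) :
    ∃ Y, RP p (X ^ p) X Y ∧ Y ^ (a + 1) ≠ 0 := by
  classical
  obtain ⟨V₁, X₁, e, he⟩ := split X a h0 h1
  have hXp : ∀ (j : ℕ) (z : (Fin (a + 1) → HH) × V₁), (X ^ j) (e.symm z) =
      e.symm ((Sh a ^ j) z.1, (X₁ ^ j) z.2) := by
    intro j z
    rw [he, ← tr_pow, tr_apply, e.apply_symm_apply, prod_pow]
    rfl
  have hne : X₁ ^ (k * p) ≠ 0 := by
    intro hz
    rw [he, ← tr_pow, rk_tr, prod_pow, rk_prod, rk_Sh, hz, LinearMap.range_zero, finrank_bot] at hr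
    omega
  obtain ⟨w₁, hw₁⟩ : ∃ w₁, (X₁ ^ (k * p)) w₁ ≠ 0 := by
    by_contra hcon
    push Not at hcon
    exact hne (LinearMap.ext hcon)
  have hnil : X₁ ^ (a + 1) = 0 := nil_of_split he h0
  have hex : ∃ b, (X₁ ^ b) w₁ = 0 := ⟨a + 1, by rw [hnil]; rfl⟩
  set b' := Nat.find hex with hb'
  have hb0 : (X₁ ^ b') w₁ = 0 := Nat.find_spec hex
  have hbk : k * p < b' := by
    by_contra hcon
    push Not at hcon
    apply hw₁
    obtain ⟨c, hc⟩ := Nat.exists_eq_add_of_le' hcon
    rw [hc, pow_add, Module.End.mul_apply, hb0, map_zero]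
  have hb1 : (X₁ ^ (b' - 1)) w₁ ≠ 0 := Nat.find_min hex (by omega)
  let φ : V →ₗ[HH] HH := (LinearMap.proj (R := HH) (φ := fun _ : Fin (a + 1) => HH) (Fin.last a)) ∘ₗ
    (LinearMap.fst HH (Fin (a + 1) → HH) V₁) ∘ₗ (e : V →ₗ[HH] (Fin (a + 1) → HH) × V₁)
  have hφ : ∀ v, φ v = (e v).1 (Fin.last a) := fun _ => rfl
  refine raise_aux (k := k) (a := a) (b := b' - 1) (φ := φ) (w := e.symm (0, w₁))
    (v := e.symm (Pi.single 0 1, 0)) hp ?_ h0 ?_ ?_ ?_ (by omega) ha
  · intro j
    rw [hφ, hXp, e.apply_symm_apply]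
    simp
  · rw [hφ, hXp, e.apply_symm_apply]
    simp only
    rw [Sh_pow, dif_pos (by simp)]
    have : (⟨((Fin.last a : Fin (a + 1)) : ℕ) - a, by simp⟩ : Fin (a + 1)) = 0 := by
      apply Fin.ext
      simp
    rw [this]
    simp
  · rw [hXp, Nat.sub_add_cancel (by omega), hb0]
    simp
  · rw [hXp]
    intro h
    have h2 := e.symm.injective (h.trans (map_zero e.symm).symm)
    exact hb1 (congrArg Prod.snd h2)

theorem top_index [Nontrivial V] {p k : ℕ} (hp : 0 < p) {A : Module.End HH V}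
    (hA0 : A ^ (k + 1) = 0) (hA1 : A ^ k ≠ 0) :
    ∀ (n : ℕ) (X : Module.End HH V) (a : ℕ), X ^ p = A → X ^ (a + 1) = 0 → X ^ a ≠ 0 →
      (k + 1) * p ≤ a + n → ∃ (Y : Module.End HH V) (c : ℕ), RJ p A X Y ∧ Y ^ (c + 1) = 0 ∧ Y ^ c ≠ 0 ∧
        c + 1 = min (k * p + Module.finrank HH (LinearMap.range (A ^ k))) ((k + 1) * p) := by
  intro n
  have bound : ∀ (X : Module.End HH V) (a : ℕ), X ^ p = A → X ^ (a + 1) = 0 → X ^ a ≠ 0 →
      a + 1 ≤ (k + 1) * p ∧ k * p < a + 1 ∧
        a + 1 ≤ k * p + Module.finrank HH (LinearMap.range (A ^ k)) := by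
    intro X a hX h0 h1
    have e1 : X ^ (k * p) = A ^ k := by rw [mul_comm, pow_mul, hX]
    have e2 : X ^ ((k + 1) * p) = 0 := by rw [mul_comm, pow_mul, hX, hA0]
    refine ⟨?_, ?_, ?_⟩
    · by_contra hcon
      push Not at hcon
      obtain ⟨c, hc⟩ := Nat.exists_eq_add_of_le' (Nat.lt_succ_iff.mp hcon)
      apply h1
      rw [hc, pow_add, e2, mul_zero]
    · by_contra hcon
      push Not at hcon
      obtain ⟨c, hc⟩ := Nat.exists_eq_add_of_le' hcon
      apply hA1
      rw [← e1, hc, pow_add, h0, mul_zero]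
    · obtain ⟨V₁, X₁, e, he⟩ := split X a h0 h1
      have h2 : Module.finrank HH (LinearMap.range (X ^ (k * p))) =
          (a + 1 - k * p) + Module.finrank HH (LinearMap.range (X₁ ^ (k * p))) := by
        rw [he, ← tr_pow, rk_tr, prod_pow, rk_prod, rk_Sh]
      rw [e1] at h2
      omega
  induction n with
  | zero =>
    intro X a hX h0 h1 hn
    obtain ⟨b1, b2, b3⟩ := bound X a hX h0 h1
    omega
  | succ n ih =>
    intro X a hX h0 h1 hn
    obtain ⟨b1, b2, b3⟩ := bound X a hX h0 h1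
    by_cases hstop : a + 1 = (k + 1) * p ∨
        a + 1 = k * p + Module.finrank HH (LinearMap.range (A ^ k))
    · refine ⟨X, a, Relation.ReflTransGen.refl, h0, h1, ?_⟩
      rcases hstop with h | h
      · rw [min_eq_right (by omega)]
        exact h
      · rw [min_eq_left (by omega)]
        exact h
    · push Not at hstop
      have e1 : X ^ (k * p) = A ^ k := by rw [mul_comm, pow_mul, hX]
      obtain ⟨Y, hY, hY1⟩ := raise (k := k) hp h0 h1 (by omega) (by rw [e1]; omega)
      rw [hX] at hY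
      have hYp : Y ^ p = A := RJ.root (Relation.ReflTransGen.single hY) hX
      have hYn : IsNilpotent Y := by
        refine ⟨p * (k + 1), ?_⟩
        rw [pow_mul, hYp, hA0]
      obtain ⟨a', ha0, ha1⟩ := exists_index hYn
      have haa : a + 1 ≤ a' := by
        by_contra hcon
        push Not at hcon
        obtain ⟨c, hc⟩ := Nat.exists_eq_add_of_le' (show a' + 1 ≤ a + 1 by omega)
        apply hY1
        rw [hc, pow_add, ha0, mul_zero]
      obtain ⟨Z, c, hZ, h2, h3, h4⟩ := ih Y a' hYp ha0 ha1 (by omega)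
      exact ⟨Z, c, Relation.ReflTransGen.head hY hZ, h2, h3, h4⟩

end

theorem main : ∀ (n : ℕ) (V : Type) [AddCommGroup V] [Module HH V] [Module ℝ V]
    [IsScalarTower ℝ HH V] [Module.Finite HH V] (p : ℕ) (A X Y : Module.End HH V),
    Module.finrank HH V ≤ n → 0 < p → IsNilpotent A → X ^ p = A → Y ^ p = A → RJ p A X Y := by
  intro n
  induction n with
  | zero =>
    intro V _ _ _ _ _ p A X Y hn _ _ _ _
    have h0 : Module.finrank HH V = 0 := by omega
    have s1 : Subsingleton V := Module.finrank_zero_iff.mp h0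
    have : X = Y := by
      ext v
      exact Subsingleton.elim _ _
    rw [this]
    exact Relation.ReflTransGen.refl
  | succ n ih =>
    intro V _ _ _ _ _ p A X Y hn hp hA hX hY
    rcases subsingleton_or_nontrivial V with s1 | s1
    · have : X = Y := by
        ext v
        exact Subsingleton.elim _ _
      rw [this]
      exact Relation.ReflTransGen.refl
    obtain ⟨k, hk0, hk1⟩ := exists_index hA
    have hnil : ∀ X : Module.End HH V, X ^ p = A → IsNilpotent X := by
      intro X hX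
      refine ⟨p * (k + 1), ?_⟩
      rw [pow_mul, hX, hk0]
    obtain ⟨a₁, hx0, hx1⟩ := exists_index (hnil X hX)
    obtain ⟨a₂, hy0, hy1⟩ := exists_index (hnil Y hY)
    obtain ⟨X', c, hXX', hX0, hX1, hc⟩ := top_index hp hk0 hk1 ((k + 1) * p) X a₁ hX hx0 hx1 (by omega)
    obtain ⟨Y', c', hYY', hY0, hY1, hc'⟩ := top_index hp hk0 hk1 ((k + 1) * p) Y a₂ hY hy0 hy1 (by omega)
    have hcc : c' = c := by omega
    subst hcc
    have hX'p : X' ^ p = A := RJ.root hXX' hX
    have hY'p : Y' ^ p = A := RJ.root hYY' hY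
    obtain ⟨V₁, X₁, e, he⟩ := split X' c' hX0 hX1
    obtain ⟨V₂, Y₂, e', he'⟩ := split Y' c' hY0 hY1
    have hd := finrank_split e
    have hAe : A = tr e ((Sh c' ^ p).prodMap (X₁ ^ p)) := by
      rw [← hX'p, he, ← tr_pow, prod_pow]
    have hAe' : A = tr e' ((Sh c' ^ p).prodMap (Y₂ ^ p)) := by
      rw [← hY'p, he', ← tr_pow, prod_pow]
    have hX1n : IsNilpotent (X₁ ^ p) := by
      refine ⟨c' + 1, ?_⟩
      rw [← pow_mul, mul_comm, pow_mul, nil_of_split he hX0, zero_pow hp.ne']
    have hY2n : IsNilpotent (Y₂ ^ p) := by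
      refine ⟨c' + 1, ?_⟩
      rw [← pow_mul, mul_comm, pow_mul, nil_of_split he' hY0, zero_pow hp.ne']
    obtain ⟨h, hh⟩ := classify _ V₁ V₂ (X₁ ^ p) (Y₂ ^ p) le_rfl hX1n hY2n (by
      intro j
      have h1 : Module.finrank HH (LinearMap.range (A ^ j)) = Module.finrank HH (LinearMap.range (A ^ j)) := rfl
      conv_lhs at h1 => rw [hAe]
      conv_rhs at h1 => rw [hAe']
      rw [← tr_pow, ← tr_pow, rk_tr, rk_tr, prod_pow, prod_pow, rk_prod, rk_prod] at h1
      omega)
    -- the change of basis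
    let E : V ≃ₗ[HH] V := e.trans (((LinearEquiv.refl HH (Fin (c' + 1) → HH)).prodCongr h).trans e'.symm)
    have hE : ∀ (s : Module.End HH (Fin (c' + 1) → HH)) (B : Module.End HH V₂),
        tr E (tr e' (s.prodMap B)) = tr e (s.prodMap (tr h B)) := by
      intro s B
      refine LinearMap.ext fun v => ?_
      obtain ⟨z, rfl⟩ := e.symm.surjective v
      simp only [E, tr_apply, LinearEquiv.trans_apply, LinearEquiv.apply_symm_apply,
        LinearEquiv.symm_trans_apply, LinearEquiv.symm_symm]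
      rfl
    have hEA : tr E A = A := by
      conv_lhs => rw [hAe']
      rw [hE, ← hh, ← hAe]
    have hEY : tr E Y' = tr e ((Sh c').prodMap (tr h Y₂)) := by
      rw [he', hE]
    let g : Module.End HH V := (E.symm : V →ₗ[HH] V)
    let g' : Module.End HH V := (E : V →ₗ[HH] V)
    have hgg : g * g' = 1 := by
      ext v
      exact E.symm_apply_apply v
    have hgg' : g' * g = 1 := by
      ext v
      exact E.apply_symm_apply v
    have htr : ∀ B : Module.End HH V, tr E B = g * B * g' := fun B => rfl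
    have hcomm : Commute g A := by
      change g * A = A * g
      calc g * A = g * A * (g' * g) := by rw [hgg', mul_one]
        _ = (g * A * g') * g := by simp only [mul_assoc]
        _ = A * g := by rw [← htr, hEA]
    have hconn := cent _ V A g le_rfl hA ⟨⟨g, g', hgg, hgg'⟩, rfl⟩ hcomm
    have s1' : RJ p A (tr E Y') Y' := by
      rw [htr]
      exact hconn.conj hY'p g' hgg hgg'
    have s2 := ih V₁ p (X₁ ^ p) X₁ (tr h Y₂) (by omega) hp hX1n rfl (by rw [← tr_pow, ← hh])
    have s3 : RJ p A X' (tr E Y') := by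
      rw [hEY, he]
      exact s2.map (A' := A) (fun z => tr e ((Sh c').prodMap z))
        (fun f hf => ((FC.const _).prod hf).tr e)
        (fun x hx => by rw [← tr_pow, prod_pow, hx, ← hAe])
    exact Relation.ReflTransGen.trans hXX' (Relation.ReflTransGen.trans s3
      (Relation.ReflTransGen.trans s1' (RJ.symm hYY')))

end Pool.Agent.X128.QN
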